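import Mathlib
import Pool.Agent.H744R2.KZ.Props

/-!
Extension of a bounded derivation of a C*-algebra to the von Neumann algebra generated by the
image.
-/

open scoped ComplexOrder InnerProductSpace ComplexConjugate Topology
open Finset Filter

noncomputable section

namespace H744R2.KZ

open H759R2.Kad

universe u

namespace Extaux

section

variable {A : Type u} [CStarAlgebra A]
  {H : Type u} [NormedAddCommGroup H] [InnerProductSpace ℂ H] [CompleteSpace H]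
  {π : A →⋆ₐ[ℂ] (H →L[ℂ] H)} {I : Type u} {l : Filter I}

omit [CompleteSpace H] in
theorem wk {S : I → (H →L[ℂ] H)} {T : H →L[ℂ] H} {C : ℝ} (hb : ∀ i, ‖S i‖ ≤ C)
    (hw : ∀ x y : H, Tendsto (fun i => ⟪x, S i y⟫_ℂ) l (𝓝 ⟪x, T y⟫_ℂ))
    {x : I → H} {x₀ : H} (hx : Tendsto x l (𝓝 x₀)) {y : I → H} {y₀ : H}
    (hy : Tendsto y l (𝓝 y₀)) :
    Tendsto (fun i => ⟪x i, S i (y i)⟫_ℂ) l (𝓝 ⟪x₀, T y₀⟫_ℂ) := by
  have h1 : Tendsto (fun i => ⟪x i - x₀, S i (y i)⟫_ℂ) l (𝓝 0) := by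
    apply squeeze_zero_norm (a := fun i => ‖x i - x₀‖ * (C * ‖y i‖))
    · intro i
      refine (norm_inner_le_norm _ _).trans ?_
      refine mul_le_mul_of_nonneg_left ?_ (norm_nonneg _)
      exact ((S i).le_opNorm _).trans (mul_le_mul_of_nonneg_right (hb i) (norm_nonneg _))
    · have h2 : Tendsto (fun i => ‖x i - x₀‖) l (𝓝 0) := by
        simpa using (hx.sub_const x₀).norm
      simpa using h2.mul (hy.norm.const_mul C)
  have h2 : Tendsto (fun i => ⟪x₀, S i (y i - y₀)⟫_ℂ) l (𝓝 0) := by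
    apply squeeze_zero_norm (a := fun i => ‖x₀‖ * (C * ‖y i - y₀‖))
    · intro i
      refine (norm_inner_le_norm _ _).trans ?_
      refine mul_le_mul_of_nonneg_left ?_ (norm_nonneg _)
      exact ((S i).le_opNorm _).trans (mul_le_mul_of_nonneg_right (hb i) (norm_nonneg _))
    · have h2 : Tendsto (fun i => ‖y i - y₀‖) l (𝓝 0) := by
        simpa using (hy.sub_const y₀).norm
      simpa using (h2.const_mul C).const_mul ‖x₀‖
  have h3 := (h1.add h2).add (hw x₀ y₀)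
  rw [zero_add, zero_add] at h3
  refine h3.congr fun i => ?_
  rw [inner_sub_left, map_sub, inner_sub_right]
  ring

variable (π l)

/-- A bounded net that converges strongly-* to `m`. -/
structure Apx (a : I → A) (m : H →L[ℂ] H) : Prop where
  bdd : ∃ C : ℝ, ∀ i, ‖a i‖ ≤ C
  str : ∀ ξ, Tendsto (fun i => π (a i) ξ) l (𝓝 (m ξ))
  adj : ∀ ξ, Tendsto (fun i => π (star (a i)) ξ) l (𝓝 ((star m) ξ))

variable {π l}

theorem Apx.add {a b : I → A} {m n : H →L[ℂ] H} (ha : Apx π l a m) (hb : Apx π l b n) :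
    Apx π l (fun i => a i + b i) (m + n) where
  bdd := by
    obtain ⟨C, hC⟩ := ha.bdd
    obtain ⟨C', hC'⟩ := hb.bdd
    exact ⟨C + C', fun i => (norm_add_le _ _).trans (add_le_add (hC i) (hC' i))⟩
  str ξ := by
    simpa using (ha.str ξ).add (hb.str ξ)
  adj ξ := by
    simpa using (ha.adj ξ).add (hb.adj ξ)

theorem Apx.smul {a : I → A} {m : H →L[ℂ] H} (ha : Apx π l a m) (c : ℂ) :
    Apx π l (fun i => c • a i) (c • m) where
  bdd := by
    obtain ⟨C, hC⟩ := ha.bdd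
    exact ⟨‖c‖ * C, fun i => by
      rw [norm_smul]; exact mul_le_mul_of_nonneg_left (hC i) (norm_nonneg _)⟩
  str ξ := by
    simpa using (ha.str ξ).const_smul c
  adj ξ := by
    simpa using (ha.adj ξ).const_smul (conj c)

theorem Apx.sub {a b : I → A} {m n : H →L[ℂ] H} (ha : Apx π l a m) (hb : Apx π l b n) :
    Apx π l (fun i => a i - b i) (m - n) where
  bdd := by
    obtain ⟨C, hC⟩ := ha.bdd
    obtain ⟨C', hC'⟩ := hb.bdd
    exact ⟨C + C', fun i => (norm_sub_le _ _).trans (add_le_add (hC i) (hC' i))⟩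
  str ξ := by
    simpa using (ha.str ξ).sub (hb.str ξ)
  adj ξ := by
    simpa using (ha.adj ξ).sub (hb.adj ξ)

theorem Apx.star {a : I → A} {m : H →L[ℂ] H} (ha : Apx π l a m) :
    Apx π l (fun i => star (a i)) (star m) where
  bdd := by
    obtain ⟨C, hC⟩ := ha.bdd
    exact ⟨C, fun i => by rw [norm_star]; exact hC i⟩
  str ξ := ha.adj ξ
  adj ξ := by
    simpa using ha.str ξ

theorem Apx.const (a : A) : Apx π l (fun _ : I => a) (π a) where
  bdd := ⟨‖a‖, fun _ => le_rfl⟩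
  str ξ := tendsto_const_nhds
  adj ξ := by rw [map_star]; exact tendsto_const_nhds

omit [CompleteSpace H] in
theorem st {S : I → (H →L[ℂ] H)} {T : H →L[ℂ] H} {C : ℝ} (hb : ∀ i, ‖S i‖ ≤ C)
    (hw : ∀ y : H, Tendsto (fun i => S i y) l (𝓝 (T y))) {y : I → H} {y₀ : H}
    (hy : Tendsto y l (𝓝 y₀)) :
    Tendsto (fun i => S i (y i)) l (𝓝 (T y₀)) := by
  have h2 : Tendsto (fun i => S i (y i - y₀)) l (𝓝 0) := by
    apply squeeze_zero_norm (a := fun i => (C * ‖y i - y₀‖))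
    · intro i
      exact ((S i).le_opNorm _).trans (mul_le_mul_of_nonneg_right (hb i) (norm_nonneg _))
    · have h2 : Tendsto (fun i => ‖y i - y₀‖) l (𝓝 0) := by
        simpa using (hy.sub_const y₀).norm
      simpa using (h2.const_mul C)
  have h3 := h2.add (hw y₀)
  rw [zero_add] at h3
  refine h3.congr fun i => ?_
  rw [map_sub]
  abel

theorem Apx.mul {a b : I → A} {m n : H →L[ℂ] H} (ha : Apx π l a m) (hb : Apx π l b n) :
    Apx π l (fun i => a i * b i) (m * n) where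
  bdd := by
    obtain ⟨C, hC⟩ := ha.bdd
    obtain ⟨C', hC'⟩ := hb.bdd
    refine ⟨|C| * |C'|, fun i => (norm_mul_le _ _).trans ?_⟩
    exact mul_le_mul ((hC i).trans (le_abs_self _)) ((hC' i).trans (le_abs_self _))
      (norm_nonneg _) (abs_nonneg _)
  str ξ := by
    obtain ⟨C, hC⟩ := ha.bdd
    have h := st (S := fun i => π (a i)) (C := C)
      (fun i => (NonUnitalStarAlgHom.norm_apply_le π (a i)).trans (hC i)) ha.str (hb.str ξ)
    simpa using h
  adj ξ := by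
    obtain ⟨C, hC⟩ := hb.bdd
    have h := st (S := fun i => π (Star.star (b i))) (C := C)
      (fun i => (NonUnitalStarAlgHom.norm_apply_le π _).trans (by rw [norm_star]; exact hC i))
      hb.adj (ha.adj ξ)
    simpa using h

variable {D : A →ₗ[ℂ] (H →L[ℂ] H)} {K : ℝ}

theorem zero_sa (h3 : E_est.{u}) (hD : IsBDer π D K) {b : I → A} (hb : Apx π l b 0)
    (hs : ∀ i, IsSelfAdjoint (b i)) (x y : H) :
    Tendsto (fun i => ⟪x, D (b i) y⟫_ℂ) l (𝓝 0) := by
  obtain ⟨C, hC⟩ := hb.bdd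
  apply squeeze_zero_norm (a := fun i => 2 * K * √C * (‖y‖ * √(‖π (b i) x‖ * ‖x‖) +
    ‖x‖ * √(‖π (b i) y‖ * ‖y‖)))
  · intro i
    refine (h3 A H π D K hD (b i) (hs i) y x).trans ?_
    have h1 : √‖b i‖ ≤ √C := Real.sqrt_le_sqrt (hC i)
    have h2 := hD.nonneg
    gcongr
  · have h4 : ∀ z : H, Tendsto (fun i => √(‖π (b i) z‖ * ‖z‖)) l (𝓝 0) := by
      intro z
      have h5 := ((hb.str z).norm.mul_const ‖z‖).sqrt
      simpa using h5
    have h6 := (((h4 x).const_mul ‖y‖).add ((h4 y).const_mul ‖x‖)).const_mul (2 * K * √C)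
    simpa using h6

theorem zero_gen (h3 : E_est.{u}) (hD : IsBDer π D K) {b : I → A} (hb : Apx π l b 0)
    (x y : H) : Tendsto (fun i => ⟪x, D (b i) y⟫_ℂ) l (𝓝 0) := by
  have hr : Apx π l (fun i => b i + star (b i)) 0 := by
    have := hb.add hb.star
    simpa using this
  have hs : Apx π l (fun i => Complex.I • (b i - star (b i))) 0 := by
    have := (hb.sub hb.star).smul Complex.I
    simpa using this
  have h1 := zero_sa h3 hD hr (fun i => by
    rw [isSelfAdjoint_iff, star_add, star_star, add_comm]) x y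
  have h2 := zero_sa h3 hD hs (fun i => by
    rw [isSelfAdjoint_iff, star_smul, star_sub, star_star]
    simp only [Complex.star_def, Complex.conj_I, neg_smul, smul_sub]
    abel) x y
  have h4 := (h1.const_mul (2⁻¹ : ℂ)).sub (h2.const_mul (2⁻¹ * Complex.I : ℂ))
  rw [mul_zero, mul_zero, sub_zero] at h4
  refine h4.congr fun i => ?_
  rw [map_smul]
  simp only [map_add, map_sub, add_apply, smul_apply,
    sub_apply, inner_smul_right, inner_add_right, inner_sub_right]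
  ring_nf
  rw [Complex.I_sq]
  ring

/-- The graph of the extension. -/
def Gr (π : A →⋆ₐ[ℂ] (H →L[ℂ] H)) (D : A →ₗ[ℂ] (H →L[ℂ] H)) (l : Filter I)
    (m T : H →L[ℂ] H) : Prop :=
  ∃ a : I → A, Apx π l a m ∧ ∀ x y : H, Tendsto (fun i => ⟪x, D (a i) y⟫_ℂ) l (𝓝 ⟪x, T y⟫_ℂ)

theorem Gr.unique [NeBot l] (h3 : E_est.{u}) (hD : IsBDer π D K) {m T T' : H →L[ℂ] H}
    (h : Gr π D l m T) (h' : Gr π D l m T') : T = T' := by
  obtain ⟨a, ha, h1⟩ := h
  obtain ⟨b, hb, h2⟩ := h'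
  have h4 : Apx π l (fun i => a i - b i) 0 := by simpa using ha.sub hb
  ext y
  apply ext_inner_left ℂ
  intro x
  have h5 := zero_gen h3 hD h4 x y
  have h6 := (h1 x y).sub (h2 x y)
  have h7 : Tendsto (fun i => ⟪x, D (a i) y⟫_ℂ - ⟪x, D (b i) y⟫_ℂ) l (𝓝 0) := by
    refine h5.congr fun i => ?_
    rw [map_sub, sub_apply, inner_sub_right]
  exact sub_eq_zero.1 (tendsto_nhds_unique h6 h7)

theorem Gr.add {m n T S : H →L[ℂ] H} (h : Gr π D l m T) (h' : Gr π D l n S) :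
    Gr π D l (m + n) (T + S) := by
  obtain ⟨a, ha, h1⟩ := h
  obtain ⟨b, hb, h2⟩ := h'
  refine ⟨_, ha.add hb, fun x y => ?_⟩
  have := (h1 x y).add (h2 x y)
  simpa [inner_add_right] using this

theorem Gr.smul {m T : H →L[ℂ] H} (h : Gr π D l m T) (c : ℂ) :
    Gr π D l (c • m) (c • T) := by
  obtain ⟨a, ha, h1⟩ := h
  refine ⟨_, ha.smul c, fun x y => ?_⟩
  have := (h1 x y).const_mul c
  simpa [inner_smul_right] using this

theorem Gr.mul (hD : IsBDer π D K) {m n T S : H →L[ℂ] H} (h : Gr π D l m T)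
    (h' : Gr π D l n S) : Gr π D l (m * n) (m * S + T * n) := by
  obtain ⟨a, ha, h1⟩ := h
  obtain ⟨b, hb, h2⟩ := h'
  refine ⟨_, ha.mul hb, fun x y => ?_⟩
  obtain ⟨C, hC⟩ := ha.bdd
  obtain ⟨C', hC'⟩ := hb.bdd
  have hK := hD.nonneg
  have e1 : Tendsto (fun i => ⟪π (star (a i)) x, D (b i) y⟫_ℂ) l (𝓝 ⟪(star m) x, S y⟫_ℂ) :=
    wk (S := fun i => D (b i)) (C := K * C')
      (fun i => (hD.bound _).trans (mul_le_mul_of_nonneg_left (hC' i) hK)) h2 (ha.adj x)
      tendsto_const_nhds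
  have e2 : Tendsto (fun i => ⟪x, D (a i) (π (b i) y)⟫_ℂ) l (𝓝 ⟪x, T (n y)⟫_ℂ) :=
    wk (S := fun i => D (a i)) (C := K * C)
      (fun i => (hD.bound _).trans (mul_le_mul_of_nonneg_left (hC i) hK)) h1
      tendsto_const_nhds (hb.str y)
  have e3 := e1.add e2
  have e4 : ⟪(star m) x, S y⟫_ℂ + ⟪x, T (n y)⟫_ℂ = ⟪x, (m * S + T * n) y⟫_ℂ := by
    rw [ContinuousLinearMap.star_eq_adjoint, ContinuousLinearMap.adjoint_inner_left,
      add_apply, inner_add_right]
    rfl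
  rw [e4] at e3
  refine e3.congr fun i => ?_
  rw [hD.leib, add_apply, inner_add_right, map_star,
    ContinuousLinearMap.star_eq_adjoint, ContinuousLinearMap.adjoint_inner_left]
  rfl

theorem Gr.const (a : A) : Gr π D l (π a) (D a) :=
  ⟨fun _ => a, Apx.const a, fun _ _ => tendsto_const_nhds⟩


/-! ### Nets -/

/-- Self-adjoint elements of the double commutant are approximated by bounded nets. -/
theorem net_sa (h2 : E_kap.{u}) (π : A →⋆ₐ[ℂ] (H →L[ℂ] H)) (U : Filter (Finset H × ℕ))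
    (hU : U ≤ atTop) (m : H →L[ℂ] H) (hm : IsSelfAdjoint m)
    (hc : m ∈ Set.centralizer (Set.centralizer (Set.range π))) :
    ∃ a : Finset H × ℕ → A, Apx π U a m ∧ ∀ i, ‖a i‖ ≤ ‖m‖ := by
  have h : ∀ i : Finset H × ℕ, ∃ a : A, IsSelfAdjoint a ∧ ‖a‖ ≤ ‖m‖ ∧
      ∀ ξ ∈ i.1, ‖(π a - m) ξ‖ ≤ 1 / ((i.2 : ℝ) + 1) := by
    intro i
    obtain ⟨a, ha, hn, hx⟩ := h2 A H π m hm hc i.1.card (fun j => (i.1.equivFin.symm j : H))
      (1 / ((i.2 : ℝ) + 1)) (by positivity)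
    refine ⟨a, ha, hn, fun ξ hξ => ?_⟩
    have := hx (i.1.equivFin ⟨ξ, hξ⟩)
    simpa using this
  choose a ha hn hx using h
  have hstr : ∀ ξ, Tendsto (fun i => π (a i) ξ) U (𝓝 (m ξ)) := by
    intro ξ
    rw [tendsto_iff_norm_sub_tendsto_zero]
    rw [Metric.tendsto_nhds]
    intro ε hε
    obtain ⟨k, hk⟩ := exists_nat_one_div_lt hε
    have hev : ∀ᶠ i in (atTop : Filter (Finset H × ℕ)), ({ξ}, k) ≤ i := eventually_ge_atTop _
    filter_upwards [hU hev] with i hi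
    have h5 : ξ ∈ i.1 := by
      have := hi.1
      exact this (Finset.mem_singleton_self ξ)
    have h6 : k ≤ i.2 := hi.2
    have h7 := hx i ξ h5
    rw [dist_zero_right, norm_norm, ← sub_apply]
    refine lt_of_le_of_lt h7 (lt_of_le_of_lt ?_ hk)
    apply one_div_le_one_div_of_le (by positivity)
    have : (k : ℝ) ≤ i.2 := by exact_mod_cast h6
    linarith
  refine ⟨a, ⟨⟨‖m‖, hn⟩, hstr, fun ξ => ?_⟩, hn⟩
  have e1 : (star m) = m := hm
  rw [e1]
  refine (hstr ξ).congr fun i => ?_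
  rw [(ha i).star_eq]

/-- The von Neumann algebra generated by the image. -/
def vN (π : A →⋆ₐ[ℂ] (H →L[ℂ] H)) : VonNeumannAlgebra H where
  toStarSubalgebra := StarSubalgebra.centralizer ℂ
    (StarSubalgebra.centralizer ℂ (Set.range π) : Set (H →L[ℂ] H))
  centralizer_centralizer' := by
    have h := StarSubalgebra.coe_centralizer_centralizer ℂ (Set.range π : Set (H →L[ℂ] H))
    change Set.centralizer (Set.centralizer ((StarSubalgebra.centralizer ℂ
      (StarSubalgebra.centralizer ℂ (Set.range π) : Set (H →L[ℂ] H)) :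
        StarSubalgebra ℂ (H →L[ℂ] H)) : Set (H →L[ℂ] H))) = ((StarSubalgebra.centralizer ℂ
      (StarSubalgebra.centralizer ℂ (Set.range π) : Set (H →L[ℂ] H)) :
        StarSubalgebra ℂ (H →L[ℂ] H)) : Set (H →L[ℂ] H))
    rw [h]
    exact Set.centralizer_centralizer_centralizer _

theorem mem_vN (π : A →⋆ₐ[ℂ] (H →L[ℂ] H)) (m : H →L[ℂ] H) :
    m ∈ vN π ↔ m ∈ Set.centralizer (Set.centralizer (Set.range π)) := by
  have h := StarSubalgebra.coe_centralizer_centralizer ℂ (Set.range π : Set (H →L[ℂ] H))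
  have h2 : (Set.range π ∪ star (Set.range π) : Set (H →L[ℂ] H)) = Set.range π := by
    apply Set.union_eq_left.2
    rintro x ⟨a, ha⟩
    refine ⟨star a, ?_⟩
    rw [map_star, ha, star_star]
  rw [h2] at h
  rw [← h]
  rfl

theorem map_mem_vN (π : A →⋆ₐ[ℂ] (H →L[ℂ] H)) (a : A) : π a ∈ vN π := by
  rw [mem_vN]
  exact Set.subset_centralizer_centralizer ⟨a, rfl⟩

theorem net (h2 : E_kap.{u}) (π : A →⋆ₐ[ℂ] (H →L[ℂ] H)) (U : Filter (Finset H × ℕ))
    (hU : U ≤ atTop) (m : H →L[ℂ] H) (hc : m ∈ vN π) :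
    ∃ a : Finset H × ℕ → A, Apx π U a m ∧ ∀ i, ‖a i‖ ≤ 2 * ‖m‖ := by
  have hc' : star m ∈ vN π := star_mem hc
  have hr : (2⁻¹ : ℂ) • (m + star m) ∈ (vN π).toStarSubalgebra :=
    Submodule.smul_mem (vN π).toStarSubalgebra.toSubalgebra.toSubmodule _
      (add_mem (S := StarSubalgebra ℂ (H →L[ℂ] H)) hc hc')
  have hs : (2⁻¹ * Complex.I : ℂ) • (star m - m) ∈ (vN π).toStarSubalgebra :=
    Submodule.smul_mem (vN π).toStarSubalgebra.toSubalgebra.toSubmodule _
      (sub_mem (S := StarSubalgebra ℂ (H →L[ℂ] H)) hc' hc)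
  obtain ⟨a, ha, hna⟩ := net_sa h2 π U hU ((2⁻¹ : ℂ) • (m + star m)) (by
    rw [isSelfAdjoint_iff, star_smul, star_add, star_star, add_comm]
    simp) ((mem_vN π _).1 hr)
  obtain ⟨b, hb, hnb⟩ := net_sa h2 π U hU ((2⁻¹ * Complex.I : ℂ) • (star m - m)) (by
    rw [isSelfAdjoint_iff, star_smul, star_sub, star_star]
    simp only [star_mul', Complex.star_def, Complex.conj_I, map_inv₀, map_ofNat]
    rw [← neg_sub (star m) m, smul_neg, mul_neg, neg_smul, neg_neg]) ((mem_vN π _).1 hs)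
  refine ⟨fun i => a i + Complex.I • b i, ?_, fun i => ?_⟩
  · have h := ha.add (hb.smul Complex.I)
    have e : (2⁻¹ : ℂ) • (m + star m) + Complex.I • (2⁻¹ * Complex.I : ℂ) • (star m - m) = m := by
      rw [smul_smul]
      have : Complex.I * (2⁻¹ * Complex.I) = -2⁻¹ := by
        have := Complex.I_mul_I
        linear_combination (2⁻¹ : ℂ) * this
      rw [this]
      module
    rwa [e] at h
  · have h1 : ‖(2⁻¹ : ℂ) • (m + star m)‖ ≤ ‖m‖ := by
      rw [norm_smul]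
      have := norm_add_le m (star m)
      rw [norm_star] at this
      simp only [norm_inv, Complex.norm_ofNat]
      linarith
    have h2 : ‖(2⁻¹ * Complex.I : ℂ) • (star m - m)‖ ≤ ‖m‖ := by
      rw [norm_smul]
      have := norm_sub_le (star m) m
      rw [norm_star] at this
      simp only [norm_inv, norm_mul, Complex.norm_ofNat, Complex.norm_I]
      linarith
    calc ‖a i + Complex.I • b i‖ ≤ ‖a i‖ + ‖Complex.I • b i‖ := norm_add_le _ _
      _ = ‖a i‖ + ‖b i‖ := by rw [norm_smul, Complex.norm_I, one_mul]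
      _ ≤ ‖m‖ + ‖m‖ := add_le_add ((hna i).trans h1) ((hnb i).trans h2)
      _ = 2 * ‖m‖ := by ring

theorem ex_gr (h1 : W_lim.{u}) (h2 : E_kap.{u}) (hD : IsBDer π D K)
    (U : Ultrafilter (Finset H × ℕ)) (hU : (U : Filter (Finset H × ℕ)) ≤ atTop) (m : H →L[ℂ] H)
    (hc : m ∈ vN π) : ∃ T : H →L[ℂ] H, Gr π D (U : Filter (Finset H × ℕ)) m T ∧ ‖T‖ ≤ 2 * K * ‖m‖ := by
  obtain ⟨a, ha, hn⟩ := net h2 π U hU m hc
  have hb : ∀ i, ‖D (a i)‖ ≤ 2 * K * ‖m‖ := fun i => by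
    refine (hD.bound _).trans ?_
    have := mul_le_mul_of_nonneg_left (hn i) hD.nonneg
    linarith
  obtain ⟨S, hS, hw⟩ := h1 H (Finset H × ℕ) U (fun i => D (a i)) _ hb
  exact ⟨S, ⟨a, ha, hw⟩, hS⟩

end

end Extaux

open Extaux in
theorem prove_E_ext (h1 : W_lim.{u}) (h2 : E_kap.{u}) (h3 : E_est.{u}) : E_ext.{u} := by
  intro A _ H _ _ _ π D K hD
  classical
  let U : Ultrafilter (Finset H × ℕ) := Ultrafilter.of atTop
  have hU : (U : Filter (Finset H × ℕ)) ≤ atTop := Ultrafilter.of_le _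
  have hex : ∀ m : (vN π).toStarSubalgebra, ∃ T : H →L[ℂ] H,
      Gr π D (U : Filter (Finset H × ℕ)) (m : H →L[ℂ] H) T ∧ ‖T‖ ≤ 2 * K * ‖(m : H →L[ℂ] H)‖ :=
    fun m => ex_gr h1 h2 hD U hU m m.2
  choose T hT hTn using hex
  refine ⟨vN π, map_mem_vN π, ⟨⟨T, ?_⟩, ?_⟩, ⟨?_, ?_, ?_⟩, ?_⟩
  · intro m n
    exact Gr.unique h3 hD (hT (m + n)) ((hT m).add (hT n))
  · intro c m
    exact Gr.unique h3 hD (hT (c • m)) ((hT m).smul c)
  · intro m n
    exact Gr.unique h3 hD (hT (m * n)) (Gr.mul hD (hT m) (hT n))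
  · exact mul_nonneg (by norm_num) hD.nonneg
  · intro m
    exact hTn m
  · intro a
    exact Gr.unique h3 hD (hT ⟨π a, map_mem_vN π a⟩) (Gr.const a)

end H744R2.KZ
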